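import Mathlib

/-!
Zeros in the unit disc of the partial sums of a power series with unimodular coefficients.
-/

set_option autoImplicit false

namespace Q240.FL

open Polynomial Real Complex Metric

/-- number of zeros in the open unit disc -/
noncomputable def cnt (p : ℂ[X]) : ℕ := by
  classical
  exact (p.roots.filter (fun a => ‖a‖ < 1)).card

theorem int_root {α : ℂ} (h : ‖α‖ ≠ 1) :
    (∮ z in C(0, 1), 1 / (z - α)) = if ‖α‖ < 1 then 2 * π * I else 0 := by
  split_ifs with h1
  · have := circleIntegral.integral_sub_inv_of_mem_ball (c := 0) (R := 1) (w := α) (by simpa using h1)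
    simpa [one_div] using this
  · have h2 : 1 < ‖α‖ := lt_of_le_of_ne (not_lt.mp h1) (Ne.symm h)
    have h3 : DiffContOnCl ℂ (fun z : ℂ => 1 / (z - α)) (ball 0 1) := by
      apply DifferentiableOn.diffContOnCl
      rw [closure_ball (0 : ℂ) one_ne_zero]
      intro z hz
      have hz1 : ‖z‖ ≤ 1 := by simpa using hz
      have : z - α ≠ 0 := by
        intro h4
        rw [sub_eq_zero] at h4
        rw [h4] at hz1
        linarith
      have h5 : DifferentiableAt ℂ (fun z : ℂ => 1 / (z - α)) z :=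
        DifferentiableAt.div (differentiableAt_const 1) (differentiableAt_id.sub_const α) this
      exact h5.differentiableWithinAt
    exact h3.circleIntegral_eq_zero zero_le_one

theorem circleInt_root {α : ℂ} (h : ‖α‖ ≠ 1) : CircleIntegrable (fun z : ℂ => 1 / (z - α)) 0 1 := by
  apply ContinuousOn.circleIntegrable zero_le_one
  intro z hz
  have hz1 : ‖z‖ = 1 := by simpa using hz
  have : z - α ≠ 0 := by
    intro h4
    rw [sub_eq_zero] at h4
    rw [h4] at hz1
    exact h hz1
  have h5 : ContinuousAt (fun z : ℂ => 1 / (z - α)) z :=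
    ContinuousAt.div continuousAt_const (continuousAt_id.sub continuousAt_const) this
  exact h5.continuousWithinAt

theorem int_multiset (s : Multiset ℂ) (hs : ∀ a ∈ s, ‖a‖ ≠ 1) :
    CircleIntegrable (fun z : ℂ => (s.map fun a => 1 / (z - a)).sum) 0 1 ∧
    (∮ z in C(0, 1), (s.map fun a => 1 / (z - a)).sum) =
      2 * π * I * (s.countP (fun a => ‖a‖ < 1) : ℕ) := by
  classical
  induction s using Multiset.induction_on with
  | empty =>
    constructor
    · simp only [Multiset.map_zero, Multiset.sum_zero]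
      exact circleIntegrable_const 0 0 1
    · simp [circleIntegral]
  | cons a s ih =>
    have ih1 := ih fun b hb => hs b (Multiset.mem_cons_of_mem hb)
    have ha := hs a (Multiset.mem_cons_self a s)
    have h1 : (fun z : ℂ => ((a ::ₘ s).map fun a => 1 / (z - a)).sum) =
        fun z => 1 / (z - a) + (s.map fun a => 1 / (z - a)).sum := by
      funext z
      rw [Multiset.map_cons, Multiset.sum_cons]
    constructor
    · rw [h1]
      exact (circleInt_root ha).add ih1.1
    · rw [h1, circleIntegral.integral_add (circleInt_root ha) ih1.1, ih1.2, int_root ha, Multiset.countP_cons]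
      split_ifs
      · push_cast
        ring
      · simp

theorem arg_principle {p : ℂ[X]} (hp : ∀ z : ℂ, ‖z‖ = 1 → p.eval z ≠ 0) :
    (∮ z in C(0, 1), p.derivative.eval z / p.eval z) = 2 * π * I * (p.roots.countP (fun a => ‖a‖ < 1) : ℕ) := by
  classical
  have hroots : ∀ a ∈ p.roots, ‖a‖ ≠ 1 := by
    intro a ha h
    exact hp a h (by simpa using (mem_roots'.mp ha).2)
  rw [← (int_multiset p.roots hroots).2]
  apply circleIntegral.integral_congr zero_le_one
  intro z hz
  have hz1 : ‖z‖ = 1 := by simpa using hz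
  exact (IsAlgClosed.splits p).eval_derivative_div_eval_of_ne_zero (hp z hz1)

theorem circleInt_logder {p : ℂ[X]} (hp : ∀ z : ℂ, ‖z‖ = 1 → p.eval z ≠ 0) :
    CircleIntegrable (fun z => p.derivative.eval z / p.eval z) 0 1 := by
  apply ContinuousOn.circleIntegrable zero_le_one
  intro z hz
  have hz1 : ‖z‖ = 1 := by simpa using hz
  have h5 : ContinuousAt (fun z => p.derivative.eval z / p.eval z) z :=
    ContinuousAt.div p.derivative.continuous.continuousAt p.continuous.continuousAt (hp z hz1)
  exact h5.continuousWithinAt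

/-- Rouche -/
theorem rouche {p q : ℂ[X]} (h : ∀ z : ℂ, ‖z‖ = 1 → ‖q.eval z - p.eval z‖ < ‖p.eval z‖) :
    p.roots.countP (fun a => ‖a‖ < 1) = q.roots.countP (fun a => ‖a‖ < 1) := by
  classical
  have hp : ∀ z : ℂ, ‖z‖ = 1 → p.eval z ≠ 0 := by
    intro z hz h0
    have := h z hz
    rw [h0, norm_zero] at this
    exact absurd this (not_lt.mpr (norm_nonneg _))
  have hq : ∀ z : ℂ, ‖z‖ = 1 → q.eval z ≠ 0 := by
    intro z hz h0
    have := h z hz
    rw [h0, zero_sub, norm_neg] at this
    exact lt_irrefl _ this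
  have h1 : (∮ z in C(0, 1), (q.derivative.eval z / q.eval z - p.derivative.eval z / p.eval z)) = 0 := by
    apply circleIntegral.integral_eq_zero_of_hasDerivWithinAt (f := fun z => Complex.log (q.eval z / p.eval z))
      zero_le_one
    intro z hz
    have hz1 : ‖z‖ = 1 := by simpa using hz
    have hpz := hp z hz1
    have hqz := hq z hz1
    have h2 : q.eval z / p.eval z ∈ slitPlane := by
      have h3 : q.eval z / p.eval z = 1 + (q.eval z - p.eval z) / p.eval z := by
        field_simp
        ring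
      rw [h3]
      apply mem_slitPlane_of_norm_lt_one
      rw [norm_div, div_lt_one (norm_pos_iff.mpr hpz)]
      exact h z hz1
    have h3 : HasDerivAt (fun z => q.eval z / p.eval z)
        ((q.derivative.eval z * p.eval z - q.eval z * p.derivative.eval z) / (p.eval z) ^ 2) z :=
      (q.hasDerivAt z).div (p.hasDerivAt z) hpz
    have h4 := h3.clog h2
    have h5 : (q.derivative.eval z * p.eval z - q.eval z * p.derivative.eval z) / (p.eval z) ^ 2 /
        (q.eval z / p.eval z) = q.derivative.eval z / q.eval z - p.derivative.eval z / p.eval z := by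
      field_simp
    rw [h5] at h4
    exact h4.hasDerivWithinAt
  rw [circleIntegral.integral_sub (circleInt_logder hq) (circleInt_logder hp), arg_principle hp,
    arg_principle hq, sub_eq_zero] at h1
  have h2 : (2 * π * I : ℂ) ≠ 0 := by
    simp [Real.pi_ne_zero, I_ne_zero]
  have h3 := mul_left_cancel₀ h2 h1
  exact_mod_cast h3.symm

/-- the mean of `log |p|` is at most `cnt * log 2` if `|p 0| = |lc p| = 1` and all zeros have modulus at least `1/2` -/
theorem mean_le {p : ℂ[X]} (h0 : ‖p.eval 0‖ = 1) (h1 : ‖p.leadingCoeff‖ = 1)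
    (h2 : ∀ a : ℂ, p.eval a = 0 → 1 / 2 ≤ ‖a‖) :
    p.logMahlerMeasure ≤ (p.roots.countP (fun a => ‖a‖ < 1) : ℕ) * Real.log 2 := by
  classical
  have hp : p ≠ 0 := by
    rintro rfl
    simp at h0
  have h3 : (p.roots.map fun a => ‖a‖).prod = 1 := by
    have h4 := (IsAlgClosed.splits p).eval_eq_prod_roots 0
    have h5 : ‖p.eval 0‖ = ‖p.leadingCoeff‖ * (p.roots.map fun a => ‖a‖).prod := by
      rw [h4, norm_mul]
      congr 1
      have h6 : ∀ s : Multiset ℂ, ‖(s.map fun x => 0 - x).prod‖ = (s.map fun a => ‖a‖).prod := by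
        intro s
        induction s using Multiset.induction_on with
        | empty => simp
        | cons a s ih =>
          rw [Multiset.map_cons, Multiset.map_cons, Multiset.prod_cons, Multiset.prod_cons, norm_mul, ih, zero_sub,
            norm_neg]
      exact h6 _
    rw [h0, h1, one_mul] at h5
    exact h5.symm
  have h4 : ∀ a ∈ p.roots, 1 / 2 ≤ ‖a‖ := fun a ha => h2 a (by simpa using (mem_roots'.mp ha).2)
  rw [logMahlerMeasure_eq_log_leadingCoeff_add_sum_log_roots, h1, Real.log_one, zero_add]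
  have key : ∀ s : Multiset ℂ, (∀ a ∈ s, 1 / 2 ≤ ‖a‖) →
      (s.map fun a => log⁺ ‖a‖).sum ≤ Real.log (s.map fun a => ‖a‖).prod +
        (s.countP (fun a => ‖a‖ < 1) : ℕ) * Real.log 2 ∧ 0 < (s.map fun a => ‖a‖).prod := by
    intro s
    induction s using Multiset.induction_on with
    | empty =>
      intro _
      simp
    | cons a s ih =>
      intro hs
      obtain ⟨ih1, ih2⟩ := ih fun b hb => hs b (Multiset.mem_cons_of_mem hb)
      have ha := hs a (Multiset.mem_cons_self a s)
      have ha0 : 0 < ‖a‖ := by linarith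
      rw [Multiset.map_cons, Multiset.map_cons, Multiset.sum_cons, Multiset.prod_cons, Multiset.countP_cons]
      refine ⟨?_, by positivity⟩
      rw [Real.log_mul ha0.ne' ih2.ne']
      have h5 : log⁺ ‖a‖ ≤ Real.log ‖a‖ + (if ‖a‖ < 1 then (1 : ℝ) else 0) * Real.log 2 := by
        split_ifs with h6
        · rw [Real.posLog_eq_zero_iff _ |>.mpr]
          · have h7 : Real.log (1 / 2) ≤ Real.log ‖a‖ := Real.log_le_log (by norm_num) ha
            rw [one_div, Real.log_inv] at h7
            linarith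
          · rw [abs_of_nonneg (norm_nonneg _)]
            exact h6.le
        · rw [Real.posLog_eq_log]
          · simp
          · rw [abs_of_nonneg (norm_nonneg _)]
            exact not_lt.mp h6
      have h6 : ((Multiset.countP (fun a => ‖a‖ < 1) s + if ‖a‖ < 1 then 1 else 0 : ℕ) : ℝ) =
          (Multiset.countP (fun a => ‖a‖ < 1) s : ℝ) + (if ‖a‖ < 1 then (1 : ℝ) else 0) := by
        push_cast
        rfl
      rw [h6, add_mul]
      linarith
  have h5 := (key p.roots h4).1
  rw [h3, Real.log_one, zero_add] at h5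
  exact h5

/-- the partial sums -/
noncomputable def Q (a : ℕ → ℂ) (N : ℕ) : ℂ[X] := ∑ n ∈ Finset.range N, C (a n) * X ^ n

theorem Q_eval (a : ℕ → ℂ) (N : ℕ) (z : ℂ) : (Q a N).eval z = ∑ n ∈ Finset.range N, a n * z ^ n := by
  unfold Q
  rw [eval_finsetSum]
  simp

theorem Q_succ (a : ℕ → ℂ) (N : ℕ) (z : ℂ) : (Q a (N + 1)).eval z = (Q a N).eval z + a N * z ^ N := by
  rw [Q_eval, Q_eval, Finset.sum_range_succ]

theorem Q_coeff (a : ℕ → ℂ) (N k : ℕ) : (Q a N).coeff k = if k < N then a k else 0 := by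
  unfold Q
  rw [finsetSum_coeff]
  simp

theorem Q_natDegree {a : ℕ → ℂ} (ha : ∀ n, ‖a n‖ = 1) (N : ℕ) : (Q a (N + 1)).natDegree = N := by
  apply natDegree_eq_of_le_of_coeff_ne_zero
  · rw [natDegree_le_iff_coeff_eq_zero]
    intro k hk
    rw [Q_coeff, if_neg (by omega)]
  · rw [Q_coeff, if_pos (by omega)]
    intro h
    have := ha N
    rw [h, norm_zero] at this
    norm_num at this

theorem Q_roots {a : ℕ → ℂ} (ha : ∀ n, ‖a n‖ = 1) (N : ℕ) {z : ℂ} (hz : (Q a (N + 1)).eval z = 0) :
    1 / 2 ≤ ‖z‖ := by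
  by_contra h
  push Not at h
  rw [Q_eval, Finset.sum_range_succ'] at hz
  have h1 : ‖a 0 * z ^ 0‖ ≤ ∑ n ∈ Finset.range N, ‖z‖ ^ (n + 1) := by
    have h2 : a 0 * z ^ 0 = -∑ n ∈ Finset.range N, a (n + 1) * z ^ (n + 1) := by
      rw [eq_neg_iff_add_eq_zero, add_comm]
      exact hz
    rw [h2, norm_neg]
    refine (norm_sum_le _ _).trans (Finset.sum_le_sum fun n _ => ?_)
    rw [norm_mul, ha, one_mul, norm_pow]
  rw [pow_zero, mul_one, ha] at h1
  have h2 : ∑ n ∈ Finset.range N, ‖z‖ ^ (n + 1) ≤ ∑ n ∈ Finset.range N, (1 / 2 : ℝ) ^ (n + 1) :=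
    Finset.sum_le_sum fun n _ => pow_le_pow_left₀ (norm_nonneg _) h.le _
  have h3 : ∀ M : ℕ, ∑ n ∈ Finset.range M, (1 / 2 : ℝ) ^ (n + 1) = 1 - (1 / 2) ^ M := by
    intro M
    induction M with
    | zero => simp
    | succ M ih =>
      rw [Finset.sum_range_succ, ih]
      ring
  have h3 := h3 N
  have h4 : (0 : ℝ) < (1 / 2) ^ N := by positivity
  linarith

/-- if all the partial sums from some point on have modulus greater than `1` on the circle, then all of them have
values of modulus at most `C` -/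
theorem bounded_of_large {a : ℕ → ℂ} (ha : ∀ n, ‖a n‖ = 1) {N₀ : ℕ}
    (h : ∀ N, N₀ ≤ N → ∀ z : ℂ, ‖z‖ = 1 → 1 < ‖(Q a N).eval z‖) :
    ∃ C : ℝ, ∀ N, N₀ ≤ N → ∃ z : ℂ, ‖z‖ = 1 ∧ ‖(Q a N).eval z‖ ≤ C := by
  classical
  have hN₀ : 0 < N₀ := by
    by_contra h1
    have h2 := h 0 (by omega) 1 norm_one
    rw [Q_eval] at h2
    simp at h2
    linarith
  set w := (Q a N₀).roots.countP (fun a => ‖a‖ < 1) with hw
  have hconst : ∀ N, N₀ ≤ N → (Q a N).roots.countP (fun a => ‖a‖ < 1) = w := by
    intro N hN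
    induction N, hN using Nat.le_induction with
    | base => rfl
    | succ N hN ih =>
      rw [← ih]
      symm
      apply rouche
      intro z hz
      rw [Q_succ, add_sub_cancel_left, norm_mul, norm_pow, hz, one_pow, mul_one, ha]
      exact h N hN z hz
  refine ⟨2 ^ w + 1, fun N hN => ?_⟩
  by_contra hcon
  push Not at hcon
  obtain ⟨M, rfl⟩ : ∃ M, N = M + 1 := ⟨N - 1, by omega⟩
  have h1 := mean_le (p := Q a (M + 1)) (by rw [Q_eval, Finset.sum_range_succ']; simp [ha])
    (by rw [leadingCoeff, Q_natDegree ha, Q_coeff, if_pos (by omega)]; exact ha M) (fun z hz => Q_roots ha M hz)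
  rw [hconst (M + 1) hN, logMahlerMeasure_def] at h1
  have hne : ∀ z : ℂ, ‖z‖ = 1 → (Q a (M + 1)).eval z ≠ 0 := by
    intro z hz h0
    have := h _ hN z hz
    rw [h0, norm_zero] at this
    linarith
  have hint : CircleIntegrable (fun x => Real.log ‖(Q a (M + 1)).eval x‖) 0 1 := by
    apply ContinuousOn.circleIntegrable zero_le_one
    intro z hz
    have hz1 : ‖z‖ = 1 := by simpa using hz
    exact (ContinuousAt.log (Q a (M + 1)).continuous.norm.continuousAt
      (norm_ne_zero_iff.mpr (hne z hz1))).continuousWithinAt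
  have h2 : Real.circleAverage (fun _ : ℂ => Real.log (2 ^ w + 1)) 0 1 ≤
      Real.circleAverage (fun x => Real.log ‖(Q a (M + 1)).eval x‖) 0 1 := by
    apply Real.circleAverage_mono (circleIntegrable_const _ _ _) hint
    intro z hz
    have hz1 : ‖z‖ = 1 := by simpa using hz
    exact Real.log_le_log (by positivity) (hcon z hz1).le
  rw [Real.circleAverage_const] at h2
  have h3 : (w : ℝ) * Real.log 2 = Real.log (2 ^ w) := by rw [Real.log_pow]
  rw [h3] at h1
  have h4 : Real.log (2 ^ w : ℝ) < Real.log (2 ^ w + 1) := Real.log_lt_log (by positivity) (by linarith)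
  linarith

/-- **Core.** For every sequence of coefficients of modulus one, the minimum modulus of the partial sums on the unit
circle does not tend to infinity. -/
theorem core {a : ℕ → ℂ} (ha : ∀ n, ‖a n‖ = 1) :
    ∃ C : ℝ, ∀ N₀ : ℕ, ∃ N, N₀ ≤ N ∧ ∃ z : ℂ, ‖z‖ = 1 ∧ ‖(Q a N).eval z‖ ≤ C := by
  by_cases h : ∃ N₀, ∀ N, N₀ ≤ N → ∀ z : ℂ, ‖z‖ = 1 → 1 < ‖(Q a N).eval z‖
  · obtain ⟨N₁, h1⟩ := h
    obtain ⟨C, hC⟩ := bounded_of_large ha h1
    exact ⟨C, fun N₀ => ⟨max N₀ N₁, le_max_left _ _, hC _ (le_max_right _ _)⟩⟩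
  · push Not at h
    refine ⟨1, fun N₀ => ?_⟩
    obtain ⟨N, hN, z, hz, h1⟩ := h N₀
    exact ⟨N, hN, z, hz, h1⟩

end Q240.FL
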